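import Pool.Agent.Helper73.LL.Goals
import Pool.Agent.Helper6.W.Trace

/-! Packet LL-TRUP for `MP_75608d_al`. -/

set_option linter.unusedSectionVars false

namespace Helper98.Trup

open Matrix Equiv Pool.Agent.Helper15.An Pool.Agent.Helper6.W Pool.Agent.Helper6.FixK
open Pool.Agent.Helper73.LL
open scoped ComplexOrder Matrix.Norms.L2Operator

variable {n D : ℕ}

section norms

open scoped MatrixOrder in
theorem norm_le_of_psd {T : Matrix (Fin D) (Fin D) ℂ} {X : ℝ} (h : T.PosSemidef)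
    (h2 : (X • (1 : Matrix (Fin D) (Fin D) ℂ) - T).PosSemidef) (hX : 0 ≤ X) : ‖T‖ ≤ X := by
  have h0 : (0 : Matrix (Fin D) (Fin D) ℂ) ≤ T := h.nonneg
  rw [CStarAlgebra.norm_le_iff_le_algebraMap T hX h0, Matrix.le_iff, Algebra.algebraMap_eq_smul_one]
  exact h2

theorem norm_one_le : ‖(1 : Matrix (Fin D) (Fin D) ℂ)‖ ≤ 1 := by
  rw [← Matrix.diagonal_one, Matrix.l2_opNorm_diagonal]
  rw [pi_norm_le_iff_of_nonneg zero_le_one]
  intro i
  simp

theorem norm_unitary_le {U : Matrix (Fin D) (Fin D) ℂ} (h : Uᴴ * U = 1) : ‖U‖ ≤ 1 := by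
  have h1 := Matrix.l2_opNorm_conjTranspose_mul_self U
  rw [h] at h1
  have h2 := norm_one_le (D := D)
  rw [h1] at h2
  nlinarith [norm_nonneg U]

theorem norm_trace_le_norm (A : Matrix (Fin D) (Fin D) ℂ) : ‖trace A‖ ≤ D * ‖A‖ := by
  have hent : ∀ i, ‖A i i‖ ≤ ‖A‖ := by
    intro i
    have h1 := Matrix.l2_opNorm_mulVec A (EuclideanSpace.single i (1 : ℂ))
    rw [PiLp.norm_single, norm_one, mul_one] at h1
    refine le_trans ?_ h1
    have h2 := PiLp.norm_apply_le ((EuclideanSpace.equiv (Fin D) ℂ).symm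
      (A *ᵥ (EuclideanSpace.single i (1 : ℂ) : EuclideanSpace ℂ (Fin D)))) i
    refine le_trans (le_of_eq ?_) h2
    congr 1
    simp
  unfold Matrix.trace
  refine (norm_sum_le _ _).trans ?_
  refine (Finset.sum_le_sum fun i _ => hent i).trans ?_
  simp

end norms


section words

/-- the odd letters are good -/
def OddGood (F : ℕ) {T : ℕ} (Z : Fin T → Perm (Fin n)) : Prop :=
  ∀ t : Fin T, Odd (t : ℕ) → fixc (Z t) < F

open Classical in
/-- indicator of the words with good odd letters and less than `p` bad letters -/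
noncomputable def ind (F p : ℕ) {T : ℕ} (Z : Fin T → Perm (Fin n)) : ℝ :=
  if OddGood F Z ∧ nbad Z F < p then 1 else 0

/-- the weight restricted to the bad letters -/
noncomputable def bd (κ : Perm (Fin n) → ℝ) (F : ℕ) : Perm (Fin n) → ℝ :=
  fun g => if fixc g < F then 0 else κ g

/-- the restricted word sums -/
noncomputable def GG (ρ : Perm (Fin n) →* Matrix (Fin D) (Fin D) ℂ) (κ : Perm (Fin n) → ℝ)
    (y : Perm (Fin n)) (F p T : ℕ) : Matrix (Fin D) (Fin D) ℂ :=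
  ∑ Z : Fin T → Perm (Fin n), ((∏ t, κ (Z t)) * ind F p Z) • ρ (pos y (ext Z) T)

theorem nbad_snoc (F : ℕ) {T : ℕ} (Z : Fin T → Perm (Fin n)) (g : Perm (Fin n)) :
    nbad (Fin.snoc Z g : Fin (T + 1) → Perm (Fin n)) F =
      nbad Z F + if fixc g < F then 0 else 1 := by
  unfold nbad
  simp only [Finset.card_filter]
  rw [Fin.sum_univ_castSucc]
  simp only [Fin.snoc_castSucc, Fin.snoc_last]
  congr 1
  split_ifs with h1 h2 h2 <;> first | rfl | omega

theorem oddGood_snoc (F : ℕ) {T : ℕ} (Z : Fin T → Perm (Fin n)) (g : Perm (Fin n)) :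
    OddGood F (Fin.snoc Z g : Fin (T + 1) → Perm (Fin n)) ↔
      OddGood F Z ∧ (Odd T → fixc g < F) := by
  unfold OddGood
  rw [Fin.forall_fin_succ']
  simp only [Fin.snoc_castSucc, Fin.snoc_last, Fin.val_castSucc, Fin.val_last]

theorem ind_even {F p T : ℕ} (hT : Even T) (Z : Fin T → Perm (Fin n)) (g : Perm (Fin n)) :
    ind F (p + 1) (Fin.snoc Z g : Fin (T + 1) → Perm (Fin n)) =
      if fixc g < F then ind F (p + 1) Z else ind F p Z := by
  have hT' : ¬ Odd T := Nat.not_odd_iff_even.mpr hT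
  by_cases h : fixc g < F
  · rw [if_pos h]
    unfold ind
    have : (OddGood F (Fin.snoc Z g : Fin (T + 1) → Perm (Fin n)) ∧
        nbad (Fin.snoc Z g : Fin (T + 1) → Perm (Fin n)) F < p + 1) ↔
        (OddGood F Z ∧ nbad Z F < p + 1) := by
      rw [oddGood_snoc, nbad_snoc, if_pos h]
      simp [h]
    by_cases h2 : OddGood F Z ∧ nbad Z F < p + 1
    · rw [if_pos h2, if_pos (this.mpr h2)]
    · rw [if_neg h2, if_neg (fun h3 => h2 (this.mp h3))]
  · rw [if_neg h]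
    unfold ind
    have : (OddGood F (Fin.snoc Z g : Fin (T + 1) → Perm (Fin n)) ∧
        nbad (Fin.snoc Z g : Fin (T + 1) → Perm (Fin n)) F < p + 1) ↔
        (OddGood F Z ∧ nbad Z F < p) := by
      rw [oddGood_snoc, nbad_snoc, if_neg h]
      simp [hT']
    by_cases h2 : OddGood F Z ∧ nbad Z F < p
    · rw [if_pos h2, if_pos (this.mpr h2)]
    · rw [if_neg h2, if_neg (fun h3 => h2 (this.mp h3))]

theorem ind_odd {F p T : ℕ} (hT : Odd T) (Z : Fin T → Perm (Fin n)) (g : Perm (Fin n)) :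
    ind F p (Fin.snoc Z g : Fin (T + 1) → Perm (Fin n)) =
      if fixc g < F then ind F p Z else 0 := by
  by_cases h : fixc g < F
  · rw [if_pos h]
    unfold ind
    have : (OddGood F (Fin.snoc Z g : Fin (T + 1) → Perm (Fin n)) ∧
        nbad (Fin.snoc Z g : Fin (T + 1) → Perm (Fin n)) F < p) ↔
        (OddGood F Z ∧ nbad Z F < p) := by
      rw [oddGood_snoc, nbad_snoc, if_pos h]
      simp [h]
    by_cases h2 : OddGood F Z ∧ nbad Z F < p
    · rw [if_pos h2, if_pos (this.mpr h2)]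
    · rw [if_neg h2, if_neg (fun h3 => h2 (this.mp h3))]
  · rw [if_neg h]
    unfold ind
    rw [if_neg]
    rw [oddGood_snoc]
    tauto

variable (ρ : Perm (Fin n) →* Matrix (Fin D) (Fin D) ℂ) (κ : Perm (Fin n) → ℝ)
  (y : Perm (Fin n)) (F : ℕ)

theorem GG_even {T : ℕ} (hT : Even T) (p : ℕ) :
    GG ρ κ y F (p + 1) (T + 1) =
      wop ρ (gd κ F) * ρ (cr y T) * GG ρ κ y F (p + 1) T +
        wop ρ (bd κ F) * ρ (cr y T) * GG ρ κ y F p T := by
  unfold GG
  rw [sum_snoc, Finset.mul_sum, Finset.mul_sum, ← Finset.sum_add_distrib]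
  refine Finset.sum_congr rfl fun Z _ => ?_
  unfold wop
  rw [Finset.sum_mul, Finset.sum_mul, Finset.sum_mul, Finset.sum_mul, ← Finset.sum_add_distrib]
  refine Finset.sum_congr rfl fun g _ => ?_
  rw [prod_snoc, pos_snoc, map_mul, map_mul, ind_even hT]
  simp only [Matrix.mul_smul, Matrix.smul_mul, smul_smul]
  unfold gd bd
  by_cases h : fixc g < F
  · simp only [if_pos h, mul_zero, zero_smul, add_zero]
    congr 1
    ring
  · simp only [if_neg h, mul_zero, zero_smul, zero_add]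
    congr 1
    ring

theorem GG_odd {T : ℕ} (hT : Odd T) (p : ℕ) :
    GG ρ κ y F p (T + 1) =
      wop ρ (gd κ F) * ρ (cr y T) * GG ρ κ y F p T := by
  unfold GG
  rw [sum_snoc, Finset.mul_sum]
  refine Finset.sum_congr rfl fun Z _ => ?_
  unfold wop
  rw [Finset.sum_mul, Finset.sum_mul]
  refine Finset.sum_congr rfl fun g _ => ?_
  rw [prod_snoc, pos_snoc, map_mul, map_mul, ind_odd hT]
  simp only [Matrix.mul_smul, Matrix.smul_mul, smul_smul]
  unfold gd
  by_cases h : fixc g < F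
  · simp only [if_pos h]
    congr 1
    ring
  · simp only [if_neg h, mul_zero, zero_smul]

theorem GG_p0 (T : ℕ) : GG ρ κ y F 0 T = 0 := by
  unfold GG ind
  simp

theorem GG_T0 (p : ℕ) : GG ρ κ y F (p + 1) 0 = 1 := by
  unfold GG ind
  simp [OddGood, nbad, pos]

theorem wop_split : wop ρ κ = wop ρ (gd κ F) + wop ρ (bd κ F) := by
  unfold wop
  rw [← Finset.sum_add_distrib]
  refine Finset.sum_congr rfl fun g _ => ?_
  unfold gd bd
  by_cases h : fixc g < F
  · simp only [if_pos h, zero_smul, add_zero]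
  · simp only [if_neg h, zero_smul, zero_add]

/-- the two-letter step with a second operator `X` -/
noncomputable def stp (X : Matrix (Fin D) (Fin D) ℂ) : Matrix (Fin D) (Fin D) ℂ :=
  wop ρ (gd κ F) * ((ρ y)ᴴ * X * ρ y)

theorem GG_rec (hu : ∀ g, (ρ g)ᴴ * ρ g = 1) (p N : ℕ) :
    GG ρ κ y F (p + 1) (2 * (N + 1)) =
      stp ρ κ y F (wop ρ (gd κ F)) * GG ρ κ y F (p + 1) (2 * N) +
        stp ρ κ y F (wop ρ (bd κ F)) * GG ρ κ y F p (2 * N) := by
  have h1 : 2 * (N + 1) = 2 * N + 1 + 1 := by ring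
  have hodd : Odd (2 * N + 1) := ⟨N, rfl⟩
  rw [h1, GG_odd ρ κ y F hodd, GG_even ρ κ y F (even_two_mul N)]
  have h2 : cr y (2 * N + 1) = y⁻¹ := by
    unfold cr
    rw [if_neg]
    rw [Nat.not_even_iff_odd]
    exact ⟨N, rfl⟩
  have h3 : cr y (2 * N) = y := by
    unfold cr
    rw [if_pos (even_two_mul N)]
  rw [h2, h3, ← rho_conj ρ hu]
  unfold stp
  simp only [Matrix.mul_assoc, Matrix.mul_add]

/-- operator norm of the remainder -/
theorem rem_norm (hu : ∀ g, (ρ g)ᴴ * ρ g = 1) {X a : ℝ} (hX : 0 ≤ X) (ha : 0 ≤ a)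
    (hT : ‖wop ρ κ‖ ≤ X) (hb : ‖wop ρ (bd κ F)‖ ≤ a) (N : ℕ) : ∀ p : ℕ,
    ‖(stp ρ κ y F (wop ρ κ)) ^ N - GG ρ κ y F p (2 * N)‖ ≤
      if p ≤ N then 2 ^ N * (a ^ p * (X + a) ^ (2 * N - p)) else 0 := by
  have hg : ‖wop ρ (gd κ F)‖ ≤ X + a := by
    have : wop ρ (gd κ F) = wop ρ κ - wop ρ (bd κ F) := by
      rw [wop_split ρ κ F]; abel
    rw [this]
    exact (norm_sub_le _ _).trans (add_le_add hT hb)
  have hXa : 0 ≤ X + a := by positivity
  have hy : ‖ρ y‖ ≤ 1 := norm_unitary_le (hu y)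
  have hy' : ‖(ρ y)ᴴ‖ ≤ 1 := by rw [Matrix.l2_opNorm_conjTranspose]; exact hy
  have hstp : ∀ (W : Matrix (Fin D) (Fin D) ℂ) (c : ℝ), 0 ≤ c → ‖W‖ ≤ c →
      ‖stp ρ κ y F W‖ ≤ (X + a) * c := by
    intro W c hc hW
    unfold stp
    refine (Matrix.l2_opNorm_mul _ _).trans ?_
    refine mul_le_mul hg ?_ (norm_nonneg _) hXa
    refine (Matrix.l2_opNorm_mul _ _).trans ?_
    have h1 : ‖(ρ y)ᴴ * W‖ ≤ c := by
      refine (Matrix.l2_opNorm_mul _ _).trans ?_
      calc ‖(ρ y)ᴴ‖ * ‖W‖ ≤ 1 * c := mul_le_mul hy' hW (norm_nonneg _) zero_le_one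
        _ = c := one_mul c
    calc ‖(ρ y)ᴴ * W‖ * ‖ρ y‖ ≤ c * 1 := mul_le_mul h1 hy (norm_nonneg _) hc
      _ = c := mul_one c
  have hM : ‖stp ρ κ y F (wop ρ κ)‖ ≤ (X + a) * (X + a) :=
    hstp _ _ hXa (hT.trans (by linarith))
  have hA : ‖stp ρ κ y F (wop ρ (gd κ F))‖ ≤ (X + a) * (X + a) := hstp _ _ hXa hg
  have hB : ‖stp ρ κ y F (wop ρ (bd κ F))‖ ≤ (X + a) * a := hstp _ _ ha hb
  have hMN : ∀ N : ℕ, ‖(stp ρ κ y F (wop ρ κ)) ^ N‖ ≤ (X + a) ^ (2 * N) := by
    intro N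
    induction N with
    | zero => simpa using norm_one_le (D := D)
    | succ N ih =>
      rw [pow_succ]
      refine (Matrix.l2_opNorm_mul _ _).trans ?_
      calc _ ≤ (X + a) ^ (2 * N) * ((X + a) * (X + a)) :=
            mul_le_mul ih hM (norm_nonneg _) (by positivity)
        _ = _ := by ring
  have hsplit : stp ρ κ y F (wop ρ κ) =
      stp ρ κ y F (wop ρ (gd κ F)) + stp ρ κ y F (wop ρ (bd κ F)) := by
    rw [wop_split ρ κ F]
    unfold stp
    simp only [Matrix.mul_add, Matrix.add_mul]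
  induction N with
  | zero =>
    intro p
    cases p with
    | zero =>
      rw [GG_p0]
      simpa using norm_one_le (D := D)
    | succ p =>
      rw [mul_zero, GG_T0]
      simp
  | succ N ih =>
    intro p
    cases p with
    | zero =>
      rw [GG_p0, sub_zero, if_pos (Nat.zero_le _), pow_zero, one_mul, Nat.sub_zero]
      refine (hMN (N + 1)).trans ?_
      have h1 : (1 : ℝ) ≤ 2 ^ (N + 1) := one_le_pow₀ (by norm_num)
      have h2 : 0 ≤ (X + a) ^ (2 * (N + 1)) := by positivity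
      nlinarith
    | succ p =>
      have h1 : (stp ρ κ y F (wop ρ κ)) ^ (N + 1) - GG ρ κ y F (p + 1) (2 * (N + 1)) =
          stp ρ κ y F (wop ρ (gd κ F)) *
            ((stp ρ κ y F (wop ρ κ)) ^ N - GG ρ κ y F (p + 1) (2 * N)) +
          stp ρ κ y F (wop ρ (bd κ F)) *
            ((stp ρ κ y F (wop ρ κ)) ^ N - GG ρ κ y F p (2 * N)) := by
        rw [GG_rec ρ κ y F hu, pow_succ']
        have key : ∀ M A B G₁ G₀ P : Matrix (Fin D) (Fin D) ℂ, M = A + B →
            M * P - (A * G₁ + B * G₀) = A * (P - G₁) + B * (P - G₀) := by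
          rintro M A B G₁ G₀ P rfl
          noncomm_ring
        exact key _ _ _ _ _ _ hsplit
      rw [h1]
      refine (norm_add_le _ _).trans ?_
      have h2 := (Matrix.l2_opNorm_mul (stp ρ κ y F (wop ρ (gd κ F)))
        ((stp ρ κ y F (wop ρ κ)) ^ N - GG ρ κ y F (p + 1) (2 * N))).trans
        (mul_le_mul hA (ih (p + 1)) (norm_nonneg _) (by positivity))
      have h3 := (Matrix.l2_opNorm_mul (stp ρ κ y F (wop ρ (bd κ F)))
        ((stp ρ κ y F (wop ρ κ)) ^ N - GG ρ κ y F p (2 * N))).trans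
        (mul_le_mul hB (ih p) (norm_nonneg _) (by positivity))
      refine (add_le_add h2 h3).trans ?_
      by_cases hp : p ≤ N
      · rw [if_pos hp, if_pos (by omega : p + 1 ≤ N + 1)]
        have h4 : (X + a) * a * (2 ^ N * (a ^ p * (X + a) ^ (2 * N - p))) =
            2 ^ N * (a ^ (p + 1) * (X + a) ^ (2 * (N + 1) - (p + 1))) := by
          have h5 : 2 * (N + 1) - (p + 1) = 2 * N - p + 1 := by omega
          rw [h5, pow_succ, pow_succ]
          ring
        rw [h4]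
        have h6 : (X + a) * (X + a) *
            (if p + 1 ≤ N then 2 ^ N * (a ^ (p + 1) * (X + a) ^ (2 * N - (p + 1))) else 0) ≤
            2 ^ N * (a ^ (p + 1) * (X + a) ^ (2 * (N + 1) - (p + 1))) := by
          split_ifs with h7
          · have h5 : 2 * (N + 1) - (p + 1) = 2 * N - (p + 1) + 2 := by omega
            rw [h5, pow_add]
            apply le_of_eq
            ring
          · rw [mul_zero]
            positivity
        calc _ ≤ 2 ^ N * (a ^ (p + 1) * (X + a) ^ (2 * (N + 1) - (p + 1))) +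
              2 ^ N * (a ^ (p + 1) * (X + a) ^ (2 * (N + 1) - (p + 1))) := add_le_add h6 le_rfl
          _ = _ := by ring
      · rw [if_neg hp, if_neg (by omega : ¬ p + 1 ≤ N), if_neg (by omega : ¬ p + 1 ≤ N + 1)]
        simp

theorem wop_bd_norm (hu : ∀ g, (ρ g)ᴴ * ρ g = 1) (h0 : ∀ g, 0 ≤ κ g) {a : ℝ}
    (ha : ∑ g, κ g * (if F ≤ fixc g then (1 : ℝ) else 0) ≤ a) : ‖wop ρ (bd κ F)‖ ≤ a := by
  refine le_trans ?_ ha
  unfold wop
  refine (norm_sum_le _ _).trans (Finset.sum_le_sum fun g _ => ?_)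
  refine (norm_smul_le _ _).trans ?_
  have h1 : ‖ρ g‖ ≤ 1 := norm_unitary_le (hu g)
  unfold bd
  by_cases h : fixc g < F
  · rw [if_pos h, if_neg (not_le.mpr h)]
    simp
  · rw [if_neg h, if_pos (not_lt.mp h), mul_one, Real.norm_of_nonneg (h0 g)]
    have := h0 g
    nlinarith

/-- the trace of the restricted word sum -/
theorem trace_GG_le (hu : ∀ g, (ρ g)ᴴ * ρ g = 1) (h0 : ∀ g, 0 ≤ κ g)
    (h1 : ∑ g, κ g = 1) (q N F' : ℕ) (ψ : ℝ) (hψ0 : 0 ≤ ψ)
    (hψ : ∀ g : Perm (Fin n), fixc g < F' → ‖trace (ρ g)‖ ≤ D * ψ) :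
    (trace (GG ρ κ y F (q + 1) (2 * N))).re ≤
      D * (∑ Z : Fin (2 * N) → Perm (Fin n), (∏ t, κ (Z t)) *
        (if F' ≤ fixc (pos y (ext Z) (2 * N)) ∧ nbad Z F ≤ q then (1 : ℝ) else 0)) + D * ψ := by
  unfold GG
  rw [trace_sum, Complex.re_sum]
  have hD : (0 : ℝ) ≤ D := Nat.cast_nonneg _
  have hterm : ∀ Z : Fin (2 * N) → Perm (Fin n),
      (trace (((∏ t, κ (Z t)) * ind F (q + 1) Z) • ρ (pos y (ext Z) (2 * N)))).re ≤
        D * ((∏ t, κ (Z t)) *
          (if F' ≤ fixc (pos y (ext Z) (2 * N)) ∧ nbad Z F ≤ q then (1 : ℝ) else 0)) +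
          (∏ t, κ (Z t)) * (D * ψ) := by
    intro Z
    have hp : 0 ≤ ∏ t, κ (Z t) := Finset.prod_nonneg fun t _ => h0 _
    have h4 : 0 ≤ (∏ t, κ (Z t)) * (D * ψ) := by positivity
    rw [trace_smul, Complex.real_smul, Complex.re_ofReal_mul]
    unfold ind
    by_cases hi : OddGood F Z ∧ nbad Z F < q + 1
    · rw [if_pos hi, mul_one]
      have hre := Complex.re_le_norm (trace (ρ (pos y (ext Z) (2 * N))))
      by_cases hF : F' ≤ fixc (pos y (ext Z) (2 * N))
      · rw [if_pos ⟨hF, Nat.lt_succ_iff.mp hi.2⟩, mul_one]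
        have h2 := norm_trace_le hu (pos y (ext Z) (2 * N))
        have h3 : (∏ t, κ (Z t)) * (trace (ρ (pos y (ext Z) (2 * N)))).re ≤
            (∏ t, κ (Z t)) * D := mul_le_mul_of_nonneg_left (hre.trans h2) hp
        linarith
      · rw [if_neg (fun h => hF h.1), mul_zero, mul_zero, zero_add]
        exact mul_le_mul_of_nonneg_left (hre.trans (hψ _ (not_le.1 hF))) hp
    · rw [if_neg hi, mul_zero, zero_mul]
      have h5 : 0 ≤ D * ((∏ t, κ (Z t)) *
          (if F' ≤ fixc (pos y (ext Z) (2 * N)) ∧ nbad Z F ≤ q then (1 : ℝ) else 0)) := by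
        split_ifs <;> positivity
      linarith
  refine (Finset.sum_le_sum fun Z _ => hterm Z).trans ?_
  rw [Finset.sum_add_distrib, ← Finset.mul_sum, ← Finset.sum_mul, sum_weights h1, one_mul]

end words

theorem trup : S_TRUP := by
  intro n D ρ κ N q F' F'' X a ψ S hn hu h0 h1 hpsd hX1 hX hq ha hψ0 hψ hS
  have hD : (0 : ℝ) ≤ D := Nat.cast_nonneg _
  have ha0 : 0 ≤ a := by
    refine le_trans (Finset.sum_nonneg fun g _ => mul_nonneg (h0 g) ?_) ha
    split_ifs <;> norm_num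
  have hT := norm_le_of_psd hpsd hX1 hX
  have hb := wop_bd_norm ρ κ F'' hu h0 ha
  set R := (2 : ℝ) ^ N * (a ^ (q + 1) * (X + a) ^ (2 * N - (q + 1))) with hR
  have hmain : ∀ y : Perm (Fin n),
      (trace ((wop ρ (gd κ F'') * ((ρ y)ᴴ * wop ρ κ * ρ y)) ^ N)).re ≤
      (D * (∑ Z : Fin (2 * N) → Perm (Fin n), (∏ t, κ (Z t)) *
        (if F' ≤ fixc (pos y (ext Z) (2 * N)) ∧ nbad Z F'' ≤ q then (1 : ℝ) else 0)) + D * ψ) +
        D * R := by
    intro y
    have h2 := rem_norm ρ κ y F'' hu hX ha0 hT hb N (q + 1)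
    rw [if_pos (by omega : q + 1 ≤ N)] at h2
    have h3 := norm_trace_le_norm ((stp ρ κ y F'' (wop ρ κ)) ^ N - GG ρ κ y F'' (q + 1) (2 * N))
    have h4 := (Complex.re_le_norm _).trans (h3.trans (mul_le_mul_of_nonneg_left h2 hD))
    rw [trace_sub, Complex.sub_re] at h4
    have h5 := trace_GG_le ρ κ y F'' hu h0 h1 q N F' ψ hψ0 hψ
    unfold stp at h4
    linarith
  refine (Finset.sum_le_sum fun (y : Alt n) _ => hmain (y : Perm (Fin n))).trans ?_
  rw [Finset.sum_add_distrib, Finset.sum_add_distrib, ← Finset.mul_sum, Finset.sum_const,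
    Finset.sum_const, Finset.card_univ, nsmul_eq_mul, nsmul_eq_mul]
  have h2 : ∑ y : Alt n, ∑ Z : Fin (2 * N) → Perm (Fin n), (∏ t, κ (Z t)) *
        (if F' ≤ fixc (pos (y : Perm (Fin n)) (ext Z) (2 * N)) ∧ nbad Z F'' ≤ q
          then (1 : ℝ) else 0) ≤
      ∑ y : Perm (Fin n), ∑ Z : Fin (2 * N) → Perm (Fin n), (∏ t, κ (Z t)) *
        (if F' ≤ fixc (pos y (ext Z) (2 * N)) ∧ nbad Z F'' ≤ q then (1 : ℝ) else 0) := by
    classical
    have h3 := Finset.sum_subtype (Finset.univ.filter (fun g : Perm (Fin n) => g ∈ Alt n))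
      (p := fun g => g ∈ Alt n) (F := inferInstanceAs (Fintype (Alt n))) (by simp)
      (fun y => ∑ Z : Fin (2 * N) → Perm (Fin n),
        (∏ t, κ (Z t)) * (if F' ≤ fixc (pos y (ext Z) (2 * N)) ∧ nbad Z F'' ≤ q
          then (1 : ℝ) else 0))
    refine (le_of_eq h3.symm).trans ?_
    refine Finset.sum_le_sum_of_subset_of_nonneg (Finset.filter_subset _ _) fun y _ _ => ?_
    refine Finset.sum_nonneg fun Z _ => mul_nonneg (Finset.prod_nonneg fun t _ => h0 _) ?_
    split_ifs <;> norm_num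
  have hG : (n.factorial : ℝ) = 2 * Fintype.card (Alt n) := by
    have := card_Alt hn
    rw [Fintype.card_perm, Fintype.card_fin] at this
    exact_mod_cast this
  rw [hG] at hS
  calc _ ≤ (D : ℝ) * (2 * Fintype.card (Alt n) * S) + Fintype.card (Alt n) * (D * ψ) +
        Fintype.card (Alt n) * (D * R) := by
        gcongr
        exact h2.trans hS
    _ = _ := by ring

end Helper98.Trup
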