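import Pool.Agent.Helper74.LL.GoalsG

/-!
# Project LL: packet LL-STEP
-/

set_option autoImplicit false

open Pool.Agent.Helper15.RA Pool.Agent.Helper45.AM

noncomputable section

namespace Pool.Agent.Helper98.LL

open Pool.Agent.Helper74.LL

theorem t (kd1 : KD1) (kd2 : KD2) (k1 : K1) (exc : EXC) : STEP := by
  intro S W _ M cs hLg x b c p r s hxb hwr hbr hbs hc hp hbcp
  have hsr : s ≠ r := fun h => hbr (h ▸ hbs)
  have hm0 : M s r ≠ 0 := hLg.fin s r
  obtain ⟨⟨hw0par, -, hw0inv, hw0len, -⟩, K2, K3, ⟨-, hw0r, -, -⟩, -⟩ := kd1 S W M cs s r hsr hm0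
  obtain ⟨D1, -, D3, -, -, -, -, -, -, D10, -⟩ := kd2 S W M cs
  obtain ⟨-, -, -, -, -, -, SZ, -⟩ := k1 S W M cs hLg
  obtain ⟨-, -, hPA⟩ := Pool.Agent.Helper15.AM.k_gpa S W M cs ({s, r} : Set S)
  have hsI : s ∈ ({s, r} : Set S) := by simp
  have hrI : r ∈ ({s, r} : Set S) := by simp
  have hws : cs.IsRightDescent (x * b) s := (D10 x b s hxb).1 hbs
  obtain ⟨⟨u, hu, hwu, -⟩, -⟩ := D1 s r hsr hm0 (x * b) hws hwr
  have hlb : cs.length b = cs.length c + cs.length p := by rw [hbcp]; exact hPA c hc p hp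
  have hxcp : x * b = x * c * p := by rw [hbcp, mul_assoc]
  have hle1 : cs.length (x * c * p) ≤ cs.length (x * c) + cs.length p := cs.length_mul_le _ _
  have hle2 : cs.length (x * c) ≤ cs.length x + cs.length c := cs.length_mul_le _ _
  have hlxc : cs.length (x * c) = cs.length x + cs.length c := by
    rw [← hxcp, hxb, hlb] at hle1
    omega
  have hps : cs.IsRightDescent p s := by
    rw [hbcp] at hbs
    exact (D3 {s, r} c p s hc hp hsI).1 hbs
  have hpr : ¬ cs.IsRightDescent p r := by
    intro h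
    apply hbr
    rw [hbcp]
    exact (D3 {s, r} c p r hc hp hrI).2 h
  have hpw0 : p ≠ w0 cs s r := fun h => hpr (h ▸ hw0r)
  have hp1 : p ≠ 1 := by
    rintro rfl
    simp [CoxeterSystem.IsRightDescent] at hps
  have hplt : cs.length p < M s r := (K2 p hp).2.1 hpw0
  -- the element q
  set q : W := w0 cs s r * p⁻¹ with hqdef
  have hqI : q ∈ par cs ({s, r} : Set S) := mul_mem hw0par (inv_mem hp)
  have hqlen : cs.length q + cs.length p = M s r := by
    have := (K2 p⁻¹ (inv_mem hp)).2.2.1
    rwa [cs.length_inv] at this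
  have hxcq : x * c = u * q := by
    rw [hqdef, ← mul_assoc, ← hwu, hxcp]; group
  have hqp : q * p = w0 cs s r := by rw [hqdef]; group
  have hq1 : q ≠ 1 := by
    intro h
    rw [h, cs.length_one] at hqlen
    omega
  have key : ∀ r' t' : S, ((r' = r ∧ t' = s) ∨ (r' = s ∧ t' = r)) → cs.IsLeftDescent p t' →
      ¬ cs.IsLeftDescent p r' →
      ∃ r' t' : S, ((r' = r ∧ t' = s) ∨ (r' = s ∧ t' = r)) ∧ cs.IsLeftDescent p t' ∧ ¬ cs.IsLeftDescent p r' ∧
      cs.IsRightDescent (x * c) r' ∧ ¬ cs.IsRightDescent c r' ∧ cs.length (x * c) = cs.length x + cs.length c ∧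
      (c = 1 ∨ (cs.length p + 1 = M s r ∧ p * cs.simple r = cs.simple r' * p) ∨
        (cs.length p + 2 = M s r ∧ ∃ q, c = cs.simple q ∧ M r' q = 2 ∧ cs.IsRightDescent x r' ∧
          cs.IsRightDescent (x * cs.simple r' * cs.simple q) t')) := by
    intro r' t' hrt htp hrp
    have hr'I : r' ∈ ({s, r} : Set S) := by rcases hrt with ⟨rfl, -⟩ | ⟨rfl, -⟩ <;> simp
    have ht'I : t' ∈ ({s, r} : Set S) := by rcases hrt with ⟨-, rfl⟩ | ⟨-, rfl⟩ <;> simp
    have hr't' : r' ≠ t' := by rcases hrt with ⟨rfl, rfl⟩ | ⟨rfl, rfl⟩ <;> simp [hsr, hsr.symm]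
    have htq : ¬ cs.IsRightDescent q t' := by
      intro h
      have h1 := cs.isRightDescent_iff.1 h
      have h2 := cs.isLeftDescent_iff.1 htp
      have h3 : (q * cs.simple t') * (cs.simple t' * p) = w0 cs s r := by
        rw [mul_assoc q, ← mul_assoc (cs.simple t'), cs.simple_mul_simple_self, one_mul, hqp]
      have h4 := cs.length_mul_le (q * cs.simple t') (cs.simple t' * p)
      rw [h3, hw0len] at h4
      omega
    have hrq : cs.IsRightDescent q r' := by
      have h := ((K3 q hqI).2 hq1).1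
      rcases hrt with ⟨rfl, rfl⟩ | ⟨rfl, rfl⟩
      · exact h.resolve_left htq
      · exact h.resolve_right htq
    have hrxc : cs.IsRightDescent (x * c) r' := by
      rw [hxcq]
      exact (D3 {s, r} u q r' hu hqI hr'I).2 hrq
    have hnr : ∀ e ∈ ({s, r} : Set S), ¬ cs.IsRightDescent c e := by
      intro e he
      exact cs.not_isRightDescent_iff.2 (hc e he)
    refine ⟨r', t', hrt, htp, hrp, hrxc, hnr r' hr'I, hlxc, ?_⟩
    by_cases hc1 : c = 1
    · exact Or.inl hc1
    right
    by_cases h1 : cs.length p + 1 = M s r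
    · left
      refine ⟨h1, ?_⟩
      have e1 : p * cs.simple r = w0 cs s r := by
        by_contra hne
        have hmem : p * cs.simple r ∈ par cs ({s, r} : Set S) :=
          mul_mem hp (Subgroup.subset_closure (Set.mem_image_of_mem _ hrI))
        have := (K2 _ hmem).2.1 hne
        have h2 := cs.not_isRightDescent_iff.1 hpr
        omega
      have e2 : cs.simple r' * p = w0 cs s r := by
        by_contra hne
        have hmem : cs.simple r' * p ∈ par cs ({s, r} : Set S) :=
          mul_mem (Subgroup.subset_closure (Set.mem_image_of_mem _ hr'I)) hp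
        have := (K2 _ hmem).2.1 hne
        have h2 := cs.not_isLeftDescent_iff.1 hrp
        omega
      rw [e1, e2]
    right
    by_cases h2 : cs.length p + 2 = M s r
    · refine ⟨h2, ?_⟩
      have hqr : q * cs.simple r' ∈ par cs ({s, r} : Set S) :=
        mul_mem hqI (Subgroup.subset_closure (Set.mem_image_of_mem _ hr'I))
      have hl1 := cs.isRightDescent_iff.1 hrq
      have hqr1 : q * cs.simple r' ≠ 1 := by
        intro h
        rw [h, cs.length_one] at hl1
        omega
      have hnq : ¬ cs.IsRightDescent (q * cs.simple r') r' := by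
        rw [CoxeterSystem.IsRightDescent, mul_assoc, cs.simple_mul_simple_self, mul_one]
        omega
      have htq' : cs.IsRightDescent (q * cs.simple r') t' := by
        have h := ((K3 _ hqr).2 hqr1).1
        rcases hrt with ⟨rfl, rfl⟩ | ⟨rfl, rfl⟩
        · exact h.resolve_right hnq
        · exact h.resolve_left hnq
      have htx : cs.IsRightDescent (x * c * cs.simple r') t' := by
        rw [hxcq, mul_assoc]
        exact (D3 {s, r} u (q * cs.simple r') t' hu hqr ht'I).2 htq'
      exact exc S W M cs hLg x c r' t' hlxc hc1 hr't' hrxc (hnr r' hr'I) (hnr t' ht'I) htx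
    · exfalso
      obtain ⟨π, hπ⟩ := cs.exists_rightDescent_of_ne_one hc1
      have hπs : π ≠ s := fun h => hnr s hsI (h ▸ hπ)
      have hπr : π ≠ r := fun h => hnr r hrI (h ▸ hπ)
      have hπx : cs.IsRightDescent (u * q) π := by
        rw [← hxcq]
        exact (D10 x c π hlxc).1 hπ
      have := SZ s π r u q hsr hπs hπr hu hqI hπx
      omega
  have hL := ((K3 p hp).2 hp1).2
  have hN := ((K3 p hp).1 hpw0).2
  rcases hL with h | h
  · exact key r s (Or.inl ⟨rfl, rfl⟩) h (fun h' => hN ⟨h, h'⟩)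
  · exact key s r (Or.inr ⟨rfl, rfl⟩) h (fun h' => hN ⟨h', h⟩)

end Pool.Agent.Helper98.LL
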